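import Mathlib
import Pool.Agent.H378R2.PS.Defs
import Pool.Agent.H398R2.RK.Count

set_option autoImplicit false

namespace Pool.Agent.H378R2.PS

open Finset Filter
open Pool.Agent.H398R2.RK (smooth_core ev_all)

open Classical in
/-- P3 -/
theorem smooth8 : ∃ y₀ : ℝ, ∀ y : ℝ, y₀ ≤ y → ∀ L : ℕ, y ≤ L →
    (((Finset.Icc 1 L).filter (fun m : ℕ => ∀ p : ℕ, p.Prime → p ∣ m →
      Real.log p ≤ V1 y)).card : ℝ) ≤ L / (Real.log y) ^ 8 := by
  obtain ⟨C, hC, hcore⟩ := smooth_core
  obtain ⟨t₁, hev⟩ := ev_all (2 * C) (by positivity)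
  refine ⟨Real.exp (Real.exp (max t₁ 80)), fun y hy L hyL => ?_⟩
  have hy0 : 0 < y := (Real.exp_pos _).trans_le hy
  have hL1' : Real.exp (max t₁ 80) ≤ Real.log y := by
    rw [← Real.log_exp (Real.exp (max t₁ 80))]; exact Real.log_le_log (Real.exp_pos _) hy
  have hly : 0 < Real.log y := (Real.exp_pos _).trans_le hL1'
  set t := Real.log (Real.log y) with ht
  have htt' : max t₁ 80 ≤ t := by
    rw [← Real.log_exp (max t₁ 80)]; exact Real.log_le_log (Real.exp_pos _) hL1'
  have htt : t₁ ≤ t := (le_max_left _ _).trans htt'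
  have h80 : 80 ≤ t := (le_max_right _ _).trans htt'
  obtain ⟨h1, h2, h3, h4⟩ := hev t htt
  have h40 : 40 * t ≤ Real.exp t := by
    have := Real.quadratic_le_exp_of_nonneg (x := t) (by linarith)
    nlinarith
  have hlogC : Real.log C ≤ Real.log (2 * C) := Real.log_le_log hC (by linarith)
  have hLe : Real.log y = Real.exp t := by rw [ht, Real.exp_log hly]
  have hV1def : V1 y = Real.log y * Real.log t / (20 * t) := rfl
  set V0 := Real.log y * Real.log t / (20 * t) with hV0
  have ht0 : 0 < t := by linarith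
  have hV1 : 1 ≤ V0 := by
    rw [hV0, le_div_iff₀ (by positivity), hLe]
    nlinarith [Real.exp_pos t]
  set v : ℕ := ⌊Real.exp V0⌋₊ with hv
  have hv2 : 2 ≤ v := by
    rw [hv, Nat.le_floor_iff (Real.exp_pos _).le]
    have := Real.add_one_le_exp V0
    push_cast; linarith
  have hvle : (v : ℝ) ≤ Real.exp V0 := Nat.floor_le (Real.exp_pos _).le
  have hv0 : (0 : ℝ) < v := by exact_mod_cast (by omega : 0 < v)
  have hlv : Real.log v ≤ V0 := by
    rw [← Real.log_exp V0]; exact Real.log_le_log hv0 hvle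
  have hlv0 : 0 ≤ Real.log v := Real.log_nonneg (by exact_mod_cast (by omega : 1 ≤ v))
  set η : ℝ := 10 * t / Real.log y with hη
  have hη0 : 0 ≤ η := by positivity
  have hη1 : η ≤ 1 / 4 := by
    rw [hη, div_le_iff₀ hly, hLe]; linarith
  have hc := hcore η v L hη0 hη1 hv2
  have hsub : (Finset.Icc 1 L).filter (fun m : ℕ => ∀ p : ℕ, p.Prime → p ∣ m →
      Real.log p ≤ V1 y) ⊆ (Icc 1 L).filter (fun n : ℕ => ∀ p : ℕ, p.Prime → p ∣ n → p ≤ v) := by
    intro m hm
    rw [mem_filter] at hm ⊢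
    refine ⟨hm.1, fun p hp hd => ?_⟩
    rw [hv, Nat.le_floor_iff (Real.exp_pos _).le]
    have hp0 : (0 : ℝ) < p := by exact_mod_cast hp.pos
    rw [← Real.log_le_iff_le_exp hp0, ← hV1def]
    exact hm.2 p hp hd
  refine (Nat.cast_le.2 (card_le_card hsub)).trans (hc.trans ?_)
  have hL0 : (0 : ℝ) < L := hy0.trans_le hyL
  -- L^(1-η) ≤ L * exp (-10t)
  have k1 : (L : ℝ) ^ (1 - η) ≤ L * Real.exp (-(10 * t)) := by
    rw [Real.rpow_sub hL0, Real.rpow_one, div_eq_mul_inv]
    apply mul_le_mul_of_nonneg_left _ hL0.le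
    rw [Real.exp_neg]
    apply inv_anti₀ (Real.exp_pos _)
    have : Real.exp (10 * t) = y ^ η := by
      rw [Real.rpow_def_of_pos hy0, hη]; congr 1; field_simp
    rw [this]
    exact Real.rpow_le_rpow hy0.le hyL hη0
  have k2 : (v : ℝ) ^ η ≤ Real.sqrt t := by
    have e1 : Real.sqrt t = Real.exp (Real.log t / 2) := by
      rw [Real.sqrt_eq_rpow, Real.rpow_def_of_pos ht0]; ring_nf
    rw [e1]
    calc (v : ℝ) ^ η ≤ (Real.exp V0) ^ η := Real.rpow_le_rpow hv0.le hvle hη0
      _ = Real.exp (V0 * η) := by rw [← Real.exp_mul]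
      _ = _ := by
        congr 1
        rw [hV0, hη]
        field_simp
        ring
  have hlt0 : 0 ≤ Real.log t := by linarith
  have k3 : 4 * η * (v : ℝ) ^ η * (Real.log v + C) ≤
      2 * Real.sqrt t * Real.log t + 20 * (2 * C) * t * Real.sqrt t / Real.exp t := by
    calc 4 * η * (v : ℝ) ^ η * (Real.log v + C) ≤ 4 * η * Real.sqrt t * (V0 + C) := by gcongr
      _ = _ := by
        rw [hV0, hη, hLe]
        have := Real.exp_pos t
        field_simp
        ring
  have k4 : C * Real.log v ≤ C * Real.exp t := by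
    gcongr
    refine hlv.trans ?_
    rw [hV0, hLe, div_le_iff₀ (by positivity)]
    have : Real.log t ≤ t := (Real.log_le_sub_one_of_pos ht0).trans (by linarith)
    nlinarith [Real.exp_pos t]
  have k5 : C * Real.exp (2 * Real.sqrt t * Real.log t +
      20 * (2 * C) * t * Real.sqrt t / Real.exp t) ≤ Real.exp t := by
    have e1 : C = Real.exp (Real.log C) := (Real.exp_log hC).symm
    calc C * Real.exp (2 * Real.sqrt t * Real.log t + 20 * (2 * C) * t * Real.sqrt t / Real.exp t)
        = Real.exp (Real.log C + (2 * Real.sqrt t * Real.log t +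
          20 * (2 * C) * t * Real.sqrt t / Real.exp t)) := by
          rw [Real.exp_add (Real.log C), Real.exp_log hC]
      _ ≤ _ := by
          apply Real.exp_le_exp.2; linarith
  calc (L : ℝ) ^ (1 - η) * (C * Real.log v * Real.exp (4 * η * (v : ℝ) ^ η * (Real.log v + C)))
      ≤ (L * Real.exp (-(10 * t))) * (C * Real.exp t *
        Real.exp (2 * Real.sqrt t * Real.log t + 20 * (2 * C) * t * Real.sqrt t / Real.exp t)) := by
          gcongr
    _ = (L * Real.exp (-(10 * t))) * Real.exp t * (C *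
        Real.exp (2 * Real.sqrt t * Real.log t + 20 * (2 * C) * t * Real.sqrt t / Real.exp t)) := by
          ring
    _ ≤ (L * Real.exp (-(10 * t))) * Real.exp t * Real.exp t := by gcongr
    _ = L / (Real.log y) ^ 8 := by
        rw [hLe, ← Real.exp_nat_mul, mul_assoc, mul_assoc, ← Real.exp_add, ← Real.exp_add,
          div_eq_mul_inv, ← Real.exp_neg]
        congr 2
        push_cast; ring

end Pool.Agent.H378R2.PS
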